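import Pool.Agent.Q330.EVJ.Jump

/-!
# Consequences: rank and size, unions and intersections, partition matroids, degenerate subgraphs
-/

set_option autoImplicit false

namespace Pool.Agent.Q330.EVJ

open Finset Pool.Agent.Q295.EV

variable {n : ℕ}

theorem E_sub_of (G : SimpleGraph (Fin n)) : gr (edges G) = G := by
  apply SimpleGraph.edgeSet_injective
  ext e
  rw [mem_gr (edges_sub G)]
  simp [edges]

theorem gr_mono {A B : Finset (Sym2 (Fin n))} (h : A ⊆ B) : gr A ≤ gr B := by
  unfold gr
  exact SimpleGraph.fromEdgeSet_mono (by exact_mod_cast h)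

/-- all elements of a rank function are loops if one of them is -/
theorem loops {r : Finset (Sym2 (Fin n)) → ℕ} (h : IsRank r) (hi : Inv r) {e : Sym2 (Fin n)}
    (he : e ∈ E n) (h0 : r {e} = 0) : ∀ S ⊆ E n, r S = 0 := by
  have h1 : ∀ f ∈ E n, r {f} = 0 := by
    intro f hf
    obtain ⟨σ, hσ⟩ := exists_perm (mem_E.1 he) (mem_E.1 hf)
    have := hi σ {e}
    rw [image_singleton, hσ] at this
    omega
  intro S
  induction S using Finset.induction_on with
  | empty => intro _; simpa using h.le_card ∅
  | insert a S ha ih =>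
    intro hS
    have i1 := ih ((subset_insert _ _).trans hS)
    have i2 := h1 a (hS (mem_insert_self _ _))
    have i3 := h.submod {a} S
    rw [← insert_eq] at i3
    omega

/-- all elements are coloops if one of them is -/
theorem coloops {r : Finset (Sym2 (Fin n)) → ℕ} (h : IsRank r) (hi : Inv r) {e : Sym2 (Fin n)}
    (he : e ∈ E n) (h0 : r (E n \ {e}) ≠ r (E n)) : r (E n) = (E n).card := by
  have hlt : r (E n \ {e}) < r (E n) := lt_of_le_of_ne (h.mono _ _ sdiff_subset) h0
  have h1 : ∀ f ∈ E n, r (E n \ {f}) + 1 ≤ r (E n) := by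
    intro f hf
    obtain ⟨σ, hσ⟩ := exists_perm (mem_E.1 he) (mem_E.1 hf)
    have := hi σ (E n \ {e})
    rw [image_sdiff _ _ (Sym2.map.injective σ.injective), image_E, image_singleton, hσ] at this
    omega
  have hall : ∀ S : Finset (Sym2 (Fin n)), S ⊆ E n → r (E n \ S) + S.card ≤ r (E n) := by
    intro S
    induction S using Finset.induction_on with
    | empty => intro _; simp
    | insert a S ha ih =>
      intro hS
      have i1 := ih ((subset_insert _ _).trans hS)
      have haE := hS (mem_insert_self _ _)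
      have i2 := h1 a haE
      have i3 := h.submod (E n \ S) (E n \ {a})
      have e1 : E n \ S ∪ E n \ {a} = E n := by
        ext z
        simp only [mem_union, mem_sdiff, mem_singleton]
        constructor
        · rintro (h | h) <;> exact h.1
        · intro hz
          by_cases hza : z = a
          · exact Or.inl ⟨hz, hza ▸ ha⟩
          · exact Or.inr ⟨hz, hza⟩
      have e2 : E n \ S ∩ (E n \ {a}) = E n \ insert a S := by
        ext z
        simp only [mem_inter, mem_sdiff, mem_singleton, mem_insert, not_or]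
        tauto
      rw [e1, e2] at i3
      rw [card_insert_of_notMem ha]
      omega
  have := hall (E n) Subset.rfl
  have h3 := h.le_card (E n)
  omega

/-- the cardinality is a rank function -/
theorem card_isRank : IsRank (fun S : Finset (Sym2 (Fin n)) => S.card) :=
  ⟨fun _ => le_rfl, fun _ _ h => card_le_card h, fun S T => (card_union_add_card_inter S T).le⟩

/-- Properties which are determined by the rank and the size. -/
theorem rank_size {r : Finset (Sym2 (Fin n)) → ℕ} (h : IsRank r) (hi : Inv r)
    (P : SimpleGraph (Fin n) → Prop) (hmono : ∀ G H, G ≤ H → P G → P H)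
    (hdet : ∀ G H, r (edges G) = r (edges H) → (edges G).card = (edges H).card → P G → P H)
    (h1 : ∃ G, P G) (h2 : ∃ G, ¬ P G) : Evasive P := by
  classical
  have hbot : ¬ P (gr ∅) := by
    intro hb
    obtain ⟨G, hG⟩ := h2
    apply hG
    refine hmono _ _ ?_ hb
    rw [← E_sub_of G]
    exact gr_mono (empty_subset _)
  have htop : P (gr (E n)) := by
    obtain ⟨G, hG⟩ := h1
    refine hmono _ _ ?_ hG
    conv_lhs => rw [← E_sub_of G]
    exact gr_mono (edges_sub G)
  have hdet' : ∀ S ⊆ E n, ∀ T ⊆ E n, r S = r T → S.card = T.card → P (gr S) → P (gr T) := by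
    intro S hS T hT hr hc hP
    refine hdet _ _ ?_ ?_ hP
    · rw [edges_gr hS, edges_gr hT]; exact hr
    · rw [edges_gr hS, edges_gr hT]; exact hc
  have hr0 : r ∅ = 0 := by simpa using h.le_card ∅
  -- a general step: independent sets
  have hind : ∀ r' : Finset (Sym2 (Fin n)) → ℕ, IsRank r' → (∀ e ∈ E n, 1 ≤ r' {e}) →
      (∀ S ⊆ E n, ∀ T ⊆ E n, r' S = r' T → S.card = T.card → r' S = S.card →
        P (gr S) → P (gr T)) →
      (∃ S ⊆ E n, r' S = S.card ∧ P (gr S)) → Evasive P := by
    intro r' h' hl hd hex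
    have hex2 : ∃ t, ∃ S ⊆ E n, r' S = S.card ∧ S.card = t ∧ P (gr S) := by
      obtain ⟨S, a, b, c⟩ := hex
      exact ⟨_, S, a, b, rfl, c⟩
    set t := Nat.find hex2 with htdef
    obtain ⟨S, hS, hrS, hcS, hPS⟩ := Nat.find_spec hex2
    have ht1 : 1 ≤ t := by
      by_contra hcon
      have : t = 0 := by omega
      rw [← htdef, this, card_eq_zero] at hcS
      rw [hcS] at hPS
      exact hbot hPS
    refine indep_jump h' hl ht1 ?_ P ?_ ?_
    · rw [htdef, ← hcS, ← hrS]
      exact h'.mono _ _ hS
    · intro T hT hcT hrT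
      refine hd S hS T hT ?_ ?_ hrS hPS
      · rw [hrS, hcS, hrT]
      · rw [hcS, hcT]
    · intro T hT hcT hrT hPT
      exact Nat.find_min hex2 (m := t - 1) (by omega) ⟨T, hT, by rw [hrT, hcT], hcT, hPT⟩
  by_cases hloop : ∀ e ∈ E n, 1 ≤ r {e}
  · by_cases hbase : ∃ S ⊆ E n, r S = S.card ∧ P (gr S)
    · exact hind r h hloop (fun S hS T hT a b _ d => hdet' S hS T hT a b d) hbase
    · -- spanning sets
      have hcol : ∀ e ∈ E n, r (E n \ {e}) = r (E n) := by
        intro e he
        by_contra hcon
        exact hbase ⟨E n, Subset.rfl, coloops h hi he hcon, htop⟩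
      have hex2 : ∃ k, ∃ S ⊆ E n, r S = r (E n) ∧ S.card = r (E n) + k ∧ P (gr S) :=
        ⟨(E n).card - r (E n), E n, Subset.rfl, rfl, by have := h.le_card (E n); omega, htop⟩
      set k := Nat.find hex2 with hkdef
      obtain ⟨S, hS, hrS, hcS, hPS⟩ := Nat.find_spec hex2
      have hk1 : 1 ≤ k := by
        by_contra hcon
        have : k = 0 := by omega
        rw [← hkdef, this] at hcS
        exact hbase ⟨S, hS, by omega, hPS⟩
      refine span_jump h hcol hk1 ?_ P ?_ ?_
      · have := card_le_card hS
        rw [card_E] at this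
        omega
      · intro T hT hcT hrT
        exact hdet' S hS T hT (by rw [hrS, hrT]) (by rw [hcS, hcT]) hPS
      · intro T hT hcT hrT hPT
        exact Nat.find_min hex2 (m := k - 1) (by omega) ⟨T, hT, hrT, hcT, hPT⟩
  · push Not at hloop
    obtain ⟨e, he, hre⟩ := hloop
    have hall := loops h hi he (by omega)
    refine hind _ card_isRank (fun e _ => by simp) ?_ ⟨E n, Subset.rfl, rfl, htop⟩
    intro S hS T hT _ hc _ hP
    exact hdet' S hS T hT (by rw [hall S hS, hall T hT]) hc hP

/-- Rank at least `t`, or any property which no independent set has. -/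
theorem or_evasive {r : Finset (Sym2 (Fin n)) → ℕ} (h : IsRank r)
    (hl : ∀ e ∈ E n, 1 ≤ r {e}) {t : ℕ} (ht1 : 1 ≤ t) (htr : t ≤ r (E n))
    (Q : SimpleGraph (Fin n) → Prop)
    (hQ : ∀ G, r (edges G) = (edges G).card → ¬ Q G) :
    Evasive (fun G => t ≤ r (edges G) ∨ Q G) := by
  refine indep_jump h hl ht1 htr _ ?_ ?_
  · intro S hS _ hr
    left
    rw [edges_gr hS, hr]
  · intro S hS hc hr hP
    rcases hP with hP | hP
    · rw [edges_gr hS, hr] at hP
      omega
    · exact hQ _ (by rw [edges_gr hS, hr, hc]) hP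

/-- Nullity at least `k`, together with any property which all spanning sets have. -/
theorem and_evasive {r : Finset (Sym2 (Fin n)) → ℕ} (h : IsRank r)
    (hl : ∀ e ∈ E n, r (E n \ {e}) = r (E n)) {k : ℕ} (hk : 1 ≤ k)
    (hkr : k + r (E n) ≤ n.choose 2) (Q : SimpleGraph (Fin n) → Prop)
    (hQ : ∀ G, r (edges G) = r (E n) → Q G) :
    Evasive (fun G => k + r (edges G) ≤ (edges G).card ∧ Q G) := by
  refine span_jump h hl hk hkr _ ?_ ?_
  · intro S hS hc hr
    refine ⟨by rw [edges_gr hS, hr, hc]; omega, hQ _ (by rw [edges_gr hS, hr])⟩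
  · rintro S hS hc hr ⟨hP, -⟩
    rw [edges_gr hS, hr, hc] at hP
    omega

section Partition

variable {ι : Type} [Fintype ι] [DecidableEq ι]

/-- the rank function of a partition matroid -/
def pr (cls : Sym2 (Fin n) → ι) (c : ι → ℕ) (S : Finset (Sym2 (Fin n))) : ℕ :=
  ∑ i, min (c i) (S.filter (fun e => cls e = i)).card

theorem card_classes (cls : Sym2 (Fin n) → ι) (S : Finset (Sym2 (Fin n))) :
    S.card = ∑ i, (S.filter (fun e => cls e = i)).card :=
  card_eq_sum_card_fiberwise (fun _ _ => mem_coe.2 (mem_univ _))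

theorem pr_isRank (cls : Sym2 (Fin n) → ι) (c : ι → ℕ) : IsRank (pr cls c) := by
  refine ⟨fun S => ?_, fun S T hST => ?_, fun S T => ?_⟩
  · rw [card_classes cls S]
    exact sum_le_sum fun i _ => min_le_right _ _
  · refine sum_le_sum fun i _ => ?_
    have := card_le_card (filter_subset_filter (fun e => cls e = i) hST)
    omega
  · unfold pr
    rw [← sum_add_distrib, ← sum_add_distrib]
    refine sum_le_sum fun i _ => ?_
    have h1 := card_union_add_card_inter (S.filter fun e => cls e = i) (T.filter fun e => cls e = i)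
    rw [← filter_union, ← filter_inter_distrib] at h1
    have h2 := card_le_card (filter_subset_filter (fun e => cls e = i)
      (inter_subset_left : S ∩ T ⊆ S))
    have h3 := card_le_card (filter_subset_filter (fun e => cls e = i)
      (inter_subset_right : S ∩ T ⊆ T))
    omega

theorem pr_eq {cls : Sym2 (Fin n) → ι} {c : ι → ℕ} {S : Finset (Sym2 (Fin n))} :
    pr cls c S = S.card ↔ ∀ i, (S.filter (fun e => cls e = i)).card ≤ c i := by
  rw [card_classes cls S]
  unfold pr
  constructor
  · intro h i
    by_contra hcon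
    have : ∑ i, min (c i) (S.filter (fun e => cls e = i)).card <
        ∑ i, (S.filter (fun e => cls e = i)).card :=
      sum_lt_sum (fun i _ => min_le_right _ _) ⟨i, mem_univ _, by omega⟩
    omega
  · intro h
    exact sum_congr rfl fun i _ => min_eq_right (h i)

/-- Jumps on the sets with few elements of each class. -/
theorem part_jump (cls : Sym2 (Fin n) → ι) (c : ι → ℕ) (hc : ∀ e ∈ E n, 1 ≤ c (cls e)) {t : ℕ}
    (ht1 : 1 ≤ t) (htr : t ≤ ∑ i, min (c i) ((E n).filter (fun e => cls e = i)).card)
    (P : SimpleGraph (Fin n) → Prop)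
    (hP1 : ∀ S ⊆ E n, S.card = t → (∀ i, (S.filter (fun e => cls e = i)).card ≤ c i) → P (gr S))
    (hP0 : ∀ S ⊆ E n, S.card = t - 1 → (∀ i, (S.filter (fun e => cls e = i)).card ≤ c i) →
      ¬ P (gr S)) : Evasive P := by
  refine indep_jump (pr_isRank cls c) ?_ ht1 htr P ?_ ?_
  · intro e he
    unfold pr
    refine (single_le_sum (f := fun i => min (c i) (filter (fun e => cls e = i) {e}).card)
      (fun _ _ => Nat.zero_le _) (mem_univ (cls e))).trans' ?_
    have : filter (fun a => cls a = cls e) {e} = {e} := by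
      ext z
      simp only [mem_filter, mem_singleton]
      constructor
      · exact fun h => h.1
      · exact fun h => ⟨h, by rw [h]⟩
    beta_reduce
    rw [this, card_singleton]
    have := hc e he
    omega
  · intro S hS hcS hr
    exact hP1 S hS hcS (pr_eq.1 (by rw [hr, hcS]))
  · intro S hS hcS hr
    exact hP0 S hS hcS (pr_eq.1 (by rw [hr, hcS]))

end Partition

end Pool.Agent.Q330.EVJ
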