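import Pool.Agent.Q330.EVJ.Cor

/-!
# Degenerate subgraphs; connectedness or something that has a cycle
-/

set_option autoImplicit false

namespace Pool.Agent.Q330.EVJ

open Finset Pool.Agent.Q295.EV

variable {n : ℕ}

/-- There is an order of the vertices such that every vertex has at most `c i` neighbours before it,
where `i` is the number of the vertices before it. -/
def Ordered (c : ℕ → ℕ) (F : Finset (Sym2 (Fin n))) : Prop :=
  ∃ π : Equiv.Perm (Fin n), ∀ v, (univ.filter fun u => s(u, v) ∈ F ∧ π u < π v).card ≤ c (π v)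

theorem sup_pos {e : Sym2 (Fin n)} (he : e ∈ E n) : 1 ≤ (e.sup : Fin n).val := by
  induction e using Sym2.ind with
  | _ a b =>
    rw [mem_E, Sym2.mk_isDiag_iff] at he
    rw [Sym2.sup_mk]
    have h1 : (a : ℕ) ≠ b := fun h => he (Fin.ext h)
    have h2 : (a : Fin n) ≤ a ⊔ b := le_sup_left
    have h3 : (b : Fin n) ≤ a ⊔ b := le_sup_right
    rw [Fin.le_def] at h2 h3
    omega

theorem card_below (i : Fin n) : (i : ℕ) ≤ ((E n).filter (fun e => e.sup = i)).card := by
  rw [← Fin.card_Iio i]
  refine card_le_card_of_injOn (fun u => s(u, i)) ?_ ?_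
  · intro u hu
    rw [coe_Iio, Set.mem_Iio] at hu
    rw [mem_coe, mem_filter, mem_E, Sym2.mk_isDiag_iff, Sym2.sup_mk]
    exact ⟨hu.ne, sup_eq_right.2 hu.le⟩
  · intro u hu v hv h
    rw [coe_Iio, Set.mem_Iio] at hu hv
    have h' : s(u, i) = s(v, i) := h
    rw [Sym2.eq_iff] at h'
    rcases h' with h | h
    · exact h.1
    · exact h.1.trans h.2

theorem card_low (S : Finset (Sym2 (Fin n))) (v : Fin n) :
    (univ.filter fun u => s(u, v) ∈ S ∧ u < v).card ≤ (S.filter (fun e => e.sup = v)).card := by
  refine card_le_card_of_injOn (fun u => s(u, v)) ?_ ?_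
  · intro u hu
    rw [mem_coe, mem_filter] at hu
    rw [mem_coe, mem_filter, Sym2.sup_mk]
    exact ⟨hu.2.1, sup_eq_right.2 hu.2.2.le⟩
  · intro u hu w hw h
    rw [mem_coe, mem_filter] at hu hw
    have h' : s(u, v) = s(w, v) := h
    rw [Sym2.eq_iff] at h'
    rcases h' with h | h
    · exact h.1
    · exact absurd h.1 hu.2.2.ne

/-- The largest subgraph with an order of this kind. -/
theorem degenerate_evasive (c : ℕ → ℕ) (hc : ∀ i, 1 ≤ i → i < n → 1 ≤ c i) {t : ℕ} (ht : 1 ≤ t)
    (htn : t ≤ ∑ i ∈ range n, min (c i) i) :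
    Evasive (fun G : SimpleGraph (Fin n) => ∃ F ⊆ edges G, t ≤ F.card ∧ Ordered c F) := by
  refine part_jump (fun e : Sym2 (Fin n) => e.sup) (fun i => c i) ?_ ht ?_ _ ?_ ?_
  · intro e he
    exact hc _ (sup_pos he) (e.sup).2
  · refine htn.trans ?_
    rw [← Fin.sum_univ_eq_sum_range (fun i => min (c i) i) n]
    refine sum_le_sum fun i _ => ?_
    have := card_below i
    omega
  · intro S hS hcS hi
    rw [edges_gr hS]
    refine ⟨S, Subset.rfl, hcS.ge, 1, fun v => ?_⟩
    exact (card_low S v).trans (hi v)
  · rintro S hS hcS hi ⟨F, hF, htF, -⟩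
    rw [edges_gr hS] at hF
    have := card_le_card hF
    omega

theorem adj_gr {S : Finset (Sym2 (Fin n))} (hS : S ⊆ E n) {u v : Fin n} :
    (gr S).Adj u v ↔ s(u, v) ∈ S := by
  rw [← SimpleGraph.mem_edgeSet, mem_gr hS]

theorem acyclic_of {S : Finset (Sym2 (Fin n))} (hS : S ⊆ E n)
    (h : ∀ i, (S.filter (fun e => e.sup = i)).card ≤ 1) : (gr S).IsAcyclic := by
  intro u w hw
  obtain ⟨v, hv, hmax⟩ := exists_max_image w.support.toFinset id
    ⟨u, List.mem_toFinset.2 w.start_mem_support⟩
  rw [List.mem_toFinset] at hv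
  have hw' : (w.rotate v hv).IsCycle := SimpleGraph.Walk.IsCycle.rotate hv hw
  have hnn := hw'.not_nil
  have h1 := SimpleGraph.Walk.adj_snd hnn
  have h2 := SimpleGraph.Walk.adj_penultimate hnn
  have h3 := hw'.snd_ne_penultimate
  have hle : ∀ x ∈ (w.rotate v hv).support, x ≤ v := by
    intro x hx
    exact hmax x (List.mem_toFinset.2 ((SimpleGraph.Walk.mem_support_rotate_iff _ _ _).1 hx))
  have m1 : (w.rotate v hv).snd ≤ v := hle _ (SimpleGraph.Walk.getVert_mem_support _ _)
  have m2 : (w.rotate v hv).penultimate ≤ v := hle _ (SimpleGraph.Walk.getVert_mem_support _ _)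
  rw [adj_gr hS] at h1 h2
  have hcard : 1 < (S.filter (fun e => e.sup = v)).card := by
    rw [one_lt_card]
    refine ⟨_, mem_filter.2 ⟨h1, by rw [Sym2.sup_mk]; exact sup_eq_left.2 m1⟩, _,
      mem_filter.2 ⟨h2, by rw [Sym2.sup_mk]; exact sup_eq_right.2 m2⟩, ?_⟩
    intro he
    rw [Sym2.eq_iff] at he
    rcases he with he | he
    · exact h3 (he.2.trans he.1)
    · exact h3 he.2
  have := h v
  omega

theorem connected_of {S : Finset (Sym2 (Fin n))} (hS : S ⊆ E n) (hn : 2 ≤ n)
    (h : ∀ i, (S.filter (fun e => e.sup = i)).card ≤ 1) (hc : S.card = n - 1) :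
    (gr S).Connected := by
  have hsum := card_classes (fun e : Sym2 (Fin n) => e.sup) S
  -- every class except the first one has exactly one element
  have h1 : ∀ i : Fin n, 1 ≤ (i : ℕ) → (S.filter (fun e => e.sup = i)).card = 1 := by
    intro i hi
    by_contra hcon
    have h0 : (S.filter (fun e => e.sup = i)).card = 0 := by have := h i; omega
    have hz : (S.filter (fun e => e.sup = (⟨0, by omega⟩ : Fin n))).card = 0 := by
      rw [card_eq_zero, filter_eq_empty_iff]
      intro e he hs
      have := sup_pos (hS he)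
      rw [hs] at this
      simp at this
    have hle : ∑ j, (S.filter (fun e => e.sup = j)).card ≤
        ∑ j : Fin n, if j = i ∨ j = ⟨0, by omega⟩ then 0 else 1 := by
      refine sum_le_sum fun j _ => ?_
      split_ifs with hj
      · rcases hj with hj | hj
        · rw [hj, h0]
        · rw [hj, hz]
      · exact h j
    have hcount : ∑ j : Fin n, (if j = i ∨ j = ⟨0, by omega⟩ then 0 else 1) = n - 2 := by
      have e1 : (univ.filter fun j : Fin n => ¬ (j = i ∨ j = ⟨0, by omega⟩)).card = n - 2 := by
        have e2 : (univ.filter fun j : Fin n => ¬ (j = i ∨ j = ⟨0, by omega⟩)) =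
            univ \ {i, ⟨0, by omega⟩} := by
          ext j; simp
        rw [e2, card_sdiff_of_subset (subset_univ _), card_univ, Fintype.card_fin, card_pair]
        intro hh
        rw [hh] at hi
        simp at hi
      rw [← e1, card_eq_sum_ones, sum_filter]
      refine sum_congr rfl fun j _ => ?_
      split_ifs <;> simp_all
    omega
  have : Nonempty (Fin n) := ⟨⟨0, by omega⟩⟩
  have hreach : ∀ m : ℕ, ∀ hm : m < n, (gr S).Reachable ⟨m, hm⟩ ⟨0, by omega⟩ := by
    intro m
    induction m using Nat.strong_induction_on with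
    | _ m ih =>
      intro hm
      rcases Nat.eq_zero_or_pos m with h0 | h0
      · subst h0; exact SimpleGraph.Reachable.refl _
      · obtain ⟨e, he⟩ := card_eq_one.1 (h1 ⟨m, hm⟩ h0)
        have hmem : e ∈ S.filter (fun e => e.sup = (⟨m, hm⟩ : Fin n)) := by
          rw [he]; exact mem_singleton_self _
        rw [mem_filter] at hmem
        obtain ⟨heS, hes⟩ := hmem
        have heE := hS heS
        induction e using Sym2.ind with
        | _ a b =>
          rw [mem_E, Sym2.mk_isDiag_iff] at heE
          rw [Sym2.sup_mk] at hes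
          rcases le_total a b with hab | hab
          · rw [sup_eq_right.2 hab] at hes
            subst hes
            have hlt : a < ⟨m, hm⟩ := lt_of_le_of_ne hab heE
            have h2 := ih a hlt a.2
            exact ((adj_gr hS).2 heS).symm.reachable.trans h2
          · rw [sup_eq_left.2 hab] at hes
            subst hes
            have hlt : b < ⟨m, hm⟩ := lt_of_le_of_ne hab (Ne.symm heE)
            have h2 := ih b hlt b.2
            exact ((adj_gr hS).2 heS).reachable.trans h2
  rw [SimpleGraph.connected_iff]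
  refine ⟨fun u v => ?_, this⟩
  exact (hreach u u.2).trans (hreach v v.2).symm

/-- Connected, or any property which no forest has. -/
theorem connected_or_evasive (hn : 2 ≤ n) (Q : SimpleGraph (Fin n) → Prop)
    (hQ : ∀ G, G.IsAcyclic → ¬ Q G) : Evasive (fun G => G.Connected ∨ Q G) := by
  refine part_jump (fun e : Sym2 (Fin n) => e.sup) (fun _ => 1) (fun _ _ => le_rfl)
    (t := n - 1) (by omega) ?_ _ ?_ ?_
  · have h1 : ∑ i ∈ range n, min 1 i = n - 1 := by
      obtain ⟨m, rfl⟩ : ∃ m, n = m + 1 := ⟨n - 1, by omega⟩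
      rw [sum_range_succ']
      simp
    rw [← h1, ← Fin.sum_univ_eq_sum_range (fun i => min 1 i) n]
    refine sum_le_sum fun i _ => ?_
    have := card_below i
    omega
  · intro S hS hcS hi
    exact Or.inl (connected_of hS hn hi hcS)
  · intro S hS hcS hi hP
    rcases hP with hP | hP
    · have h1 := hP.card_vert_le_card_edgeSet_add_one
      rw [Nat.card_eq_fintype_card, Fintype.card_fin] at h1
      have h2 : Nat.card (gr S).edgeSet = S.card := by
        have : (gr S).edgeSet = (S : Set (Sym2 (Fin n))) := by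
          ext e
          rw [mem_gr hS, mem_coe]
        rw [this]
        simp
      rw [h2] at h1
      omega
    · exact hQ _ (acyclic_of hS hi) hP

end Pool.Agent.Q330.EVJ
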