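import Pool.Agent.Q295.EV.Vec

/-!
# Properties which jump on the independent sets or on the spanning sets of a matroid

The adversary of the team's file `Pool/Agent/Q295/EV/Rank.lean` ends in a state in which the accepted
pairs are independent, and one pair is open which makes them a basis of the truncated matroid.
-/

set_option autoImplicit false

namespace Pool.Agent.Q330.EVJ

open Finset Pool.Agent.Q295.EV

variable {n : ℕ}

/-- The independent sets of size `t` have the property and those of size `t - 1` do not have it. -/
theorem indep_jump {r : Finset (Sym2 (Fin n)) → ℕ} (h : IsRank r)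
    (hl : ∀ e ∈ E n, 1 ≤ r {e}) {t : ℕ} (ht1 : 1 ≤ t) (htr : t ≤ r (E n))
    (P : SimpleGraph (Fin n) → Prop)
    (hP1 : ∀ S ⊆ E n, S.card = t → r S = t → P (gr S))
    (hP0 : ∀ S ⊆ E n, S.card = t - 1 → r S = t - 1 → ¬ P (gr S)) : Evasive P := by
  have ht := h.trunc t
  have hE : 1 ≤ n.choose 2 := by
    rw [← card_E]
    exact ht1.trans (htr.trans (h.le_card _))
  have h00 : r ∅ = 0 := by simpa using h.le_card ∅
  refine engine _ (fun A D => St (fun S => min (r S) t) A D ∧ A.card = min (r A) t) ?_ hE ?_ ?_
  · refine ⟨⟨by simp, fun e he _ _ => ?_⟩, by simp [h00]⟩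
    have := hl e he
    simp only [insert_empty_eq, h00]
    omega
  · rintro A D ⟨hS, hc⟩ hA _ hAD e he heA heD _
    rcases st_step ht hS hA hAD he heA heD with h1 | h1
    · refine Or.inl ⟨h1, ?_⟩
      have h2 := hS.2 e he heA heD
      have h3 := ht.insert_le e A
      beta_reduce at h2 h3
      rw [card_insert_of_notMem heA]
      omega
    · exact Or.inr ⟨h1, hc⟩
  · rintro A D ⟨hS, hc⟩ hA _ hAD e he heA heD hEE
    obtain ⟨h1, h2⟩ := st_fin hS hAD he heA heD hEE
    have h3 := ht.insert_le e A
    beta_reduce at h1 h2 h3
    have h4 := h.le_card (insert e A)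
    rw [card_insert_of_notMem heA] at h4
    left
    constructor
    · refine hP1 _ (insert_subset he hA) ?_ ?_
      · rw [card_insert_of_notMem heA]
        omega
      · omega
    · refine hP0 _ hA ?_ ?_ <;> omega

/-- The spanning sets with `k` superfluous elements have the property and those with `k - 1`
superfluous elements do not have it. -/
theorem span_jump {r : Finset (Sym2 (Fin n)) → ℕ} (h : IsRank r)
    (hl : ∀ e ∈ E n, r (E n \ {e}) = r (E n)) {k : ℕ} (hk : 1 ≤ k)
    (hkr : k + r (E n) ≤ n.choose 2) (P : SimpleGraph (Fin n) → Prop)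
    (hP1 : ∀ S ⊆ E n, S.card = r (E n) + k → r S = r (E n) → P (gr S))
    (hP0 : ∀ S ⊆ E n, S.card = r (E n) + (k - 1) → r S = r (E n) → ¬ P (gr S)) : Evasive P := by
  set rd : Finset (Sym2 (Fin n)) → ℕ := fun S => (S ∩ E n).card + r (E n \ S) - r (E n) with hrd
  have hd : IsRank rd := h.dual
  have hE : 1 ≤ n.choose 2 := by omega
  have hdE : rd (E n) = n.choose 2 - r (E n) := by
    rw [hrd]
    simp only [inter_self, sdiff_self, card_E]
    have h00 : r ∅ = 0 := by simpa using h.le_card ∅
    have : (∅ : Finset (Sym2 (Fin n))) = ⊥ := rfl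
    rw [← this, h00]
    omega
  set k' := rd (E n) + 1 - k with hk'
  have ht := hd.trunc k'
  refine engine _ (fun A D => St (fun S => min (rd S) k') D A ∧ D.card = min (rd D) k') ?_ hE ?_ ?_
  · have hd0 : rd ∅ = 0 := by simpa using hd.le_card ∅
    refine ⟨⟨by simp, fun e he _ _ => ?_⟩, by rw [hd0]; simp⟩
    have h1 := hl e he
    have h2 : rd {e} = 1 := by
      rw [hrd]
      simp only
      rw [singleton_inter_of_mem he, card_singleton, h1]
      omega
    have h3 : rd ∅ = 0 := by simpa using hd.le_card ∅
    simp only [insert_empty_eq, h2, h3]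
    omega
  · rintro A D ⟨hS, hc⟩ _ hD hAD e he heA heD _
    rcases st_step ht hS hD hAD.symm he heD heA with h1 | h1
    · refine Or.inr ⟨h1, ?_⟩
      have h2 := hS.2 e he heD heA
      have h3 := ht.insert_le e D
      beta_reduce at h2 h3
      rw [card_insert_of_notMem heD]
      omega
    · exact Or.inl ⟨h1, hc⟩
  · rintro A D ⟨hS, hc⟩ hA hD hAD e he heA heD hEE
    obtain ⟨h1, h2⟩ := st_fin hS hAD.symm he heD heA (by rw [hEE, union_comm A D])
    have h3 := ht.insert_le e D
    beta_reduce at h1 h2 h3
    left
    -- `D = E \ (insert e A)` and `insert e D = E \ A`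
    have e1 : E n \ D = insert e A := by
      ext z
      rw [mem_sdiff, hEE]
      simp only [mem_insert, mem_union]
      constructor
      · rintro ⟨h | h | h, hD⟩
        · exact Or.inl h
        · exact Or.inr h
        · exact absurd h hD
      · rintro (h | h)
        · exact ⟨Or.inl h, h ▸ heD⟩
        · exact ⟨Or.inr (Or.inl h), disjoint_left.1 hAD h⟩
    have e2 : E n \ insert e D = A := by
      ext z
      rw [mem_sdiff, hEE]
      simp only [mem_insert, mem_union, not_or]
      constructor
      · rintro ⟨h | h | h, a, b⟩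
        · exact absurd h a
        · exact h
        · exact absurd h b
      · intro h
        exact ⟨Or.inr (Or.inl h), fun hz => heA (hz ▸ h), disjoint_left.1 hAD h⟩
    have hiA := insert_subset he hA
    have hiD := insert_subset he hD
    have c0 : (insert e D).card = D.card + 1 := card_insert_of_notMem heD
    have c1 : A.card = n.choose 2 - (insert e D).card := by
      rw [← e2, card_sdiff_of_subset hiD, card_E]
    have c2 : (insert e A).card = A.card + 1 := card_insert_of_notMem heA
    have c3 : (insert e D).card ≤ n.choose 2 := by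
      rw [← card_E]
      exact card_le_card hiD
    have r2 : rd (insert e D) = (insert e D ∩ E n).card + r (E n \ insert e D) - r (E n) := rfl
    rw [inter_eq_left.2 hiD, e2] at r2
    have m1 := h.mono A (E n) hA
    have m2 := h.mono A (insert e A) (subset_insert _ _)
    have m3 := h.mono (insert e A) (E n) hiA
    have hle := hd.le_card (insert e D)
    have key : r (E n) ≤ (n.choose 2 - A.card) + r A := by
      have h1 := h.submod A (E n \ A)
      have h2 := h.le_card (E n \ A)
      rw [union_sdiff_of_subset hA] at h1
      rw [card_sdiff_of_subset hA, card_E] at h2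
      omega
    constructor
    · refine hP1 _ hiA ?_ ?_ <;> omega
    · refine hP0 _ hA ?_ ?_ <;> omega

end Pool.Agent.Q330.EVJ
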